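import Mathlib

/-!
# A non-trivial integer matrix of order five with `det A = 1 = det A^{∘3}`

All entries of the matrix have absolute value between `2` and `7`. It was found by a computer search (four rows
with entries of absolute value `2`, `3`, `4`; the fifth row by a meet in the middle).
-/

set_option autoImplicit false

namespace Pool.Agent.Results.MP_52c232_nt.CubeUnimodular

/-- the example -/
def M : Matrix (Fin 5) (Fin 5) ℤ :=
  !![ 2,  4, -2,  2, -3;
     -3,  3,  4, -3,  3;
     -3, -3,  2, -2,  2;
      3,  4, -3,  3, -4;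
     -7, -6, -4, -3, -4]

/-- There are an integer `n ≥ 1` and an integer matrix `A` of order `n`, none of whose entries is `-1`, `0` or
`1`, such that `A` and the matrix of the cubes of its entries both have determinant one. (In fact `n = 5`.) -/
theorem result : ∃ (n : ℕ) (A : Matrix (Fin n) (Fin n) ℤ), 1 ≤ n ∧
    (∀ i j, A i j ≠ -1 ∧ A i j ≠ 0 ∧ A i j ≠ 1) ∧
    A.det = 1 ∧ (Matrix.of fun i j => A i j ^ 3).det = 1 := by
  refine ⟨5, M, by norm_num, ?_, ?_, ?_⟩
  · intro i j
    fin_cases i <;> fin_cases j <;> simp [M]
  · simp [M, Matrix.det_succ_row_zero, Fin.sum_univ_succ, Fin.succAbove]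
  · simp [M, Matrix.det_succ_row_zero, Fin.sum_univ_succ, Fin.succAbove]

end Pool.Agent.Results.MP_52c232_nt.CubeUnimodular
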